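import Mathlib
import Pool.Agent.H65.Perc.Markov
import Pool.Agent.H51.TA.Defs

set_option autoImplicit false

/-!
# MP_fe58d8_pr, TA-M1: planar states are noncrossing periodic involutions (helper52)
-/

namespace Pool.Agent.H51.TA

open Pool.Agent.H65.Perc

/-- displacement on the universal cover -/
def cov {L : ℕ} [NeZero L] (s : St (Lab L)) (x : ℤ) : ℤ :=
  match s.p (Sum.inl (modFin x)) with
  | Sum.inl j => (j : ℤ) + (x / L + s.g (Sum.inl (modFin x))) * L
  | Sum.inr _ => x

namespace Brid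

section basic

variable {L : ℕ} [NeZero L]

theorem Lpos : (0 : ℤ) < L := by
  have := Nat.pos_of_ne_zero (NeZero.ne L); exact_mod_cast this

theorem modFin_spec (k : ℤ) : ((modFin k : Fin L) : ℤ) + k / L * L = k := by
  have hL : (L : ℤ) ≠ 0 := by exact_mod_cast NeZero.ne L
  have h1 := Int.emod_nonneg k hL
  have h2 : ((modFin k : Fin L) : ℤ) = k % L := by
    simp only [modFin]
    exact Int.toNat_of_nonneg h1
  rw [h2]
  have := Int.emod_add_mul_ediv k L
  linarith

theorem div_add (i : Fin L) (m : ℤ) : ((i : ℤ) + m * L) / L = m := by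
  have hL : (L : ℤ) ≠ 0 := by exact_mod_cast NeZero.ne L
  rw [Int.add_mul_ediv_right _ _ hL, Int.ediv_eq_zero_of_lt (by positivity)
    (by exact_mod_cast i.isLt), zero_add]

theorem modFin_add (i : Fin L) (m : ℤ) : modFin ((i : ℤ) + m * L) = i := by
  have h1 := modFin_spec (L := L) ((i : ℤ) + m * L)
  rw [div_add] at h1
  apply Fin.ext
  have : ((modFin ((i : ℤ) + m * L) : Fin L) : ℤ) = (i : ℤ) := by linarith
  exact_mod_cast this

/-- every position is a strand in some period -/
theorem exists_pos (L : ℕ) [NeZero L] (x : ℤ) : ∃ (i : Fin L) (m : ℤ), x = (i : ℤ) + m * L :=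
  ⟨modFin x, x / L, (modFin_spec x).symm⟩

theorem pos_inj {i j : Fin L} {m n : ℤ} (h : (i : ℤ) + m * L = (j : ℤ) + n * L) :
    i = j ∧ m = n := by
  have h1 := modFin_add i m
  rw [h, modFin_add] at h1
  have h2 := div_add i m
  rw [h, div_add] at h2
  exact ⟨h1.symm, h2.symm⟩

theorem cov_eq {s : St (Lab L)} {i j : Fin L} (h : s.p (Sum.inl i) = Sum.inl j) (m : ℤ) :
    cov s ((i : ℤ) + m * L) = (j : ℤ) + (m + s.g (Sum.inl i)) * L := by
  unfold cov
  rw [modFin_add, div_add, h]

theorem cov_inv {s : St (Lab L)} (hs : AllIdle s) (x : ℤ) : cov s (cov s x) = x := by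
  obtain ⟨i, m, rfl⟩ := exists_pos L x
  obtain ⟨j, hj⟩ := Exq.partner_strand hs i
  have h2 : s.p (Sum.inl j) = Sum.inl i := by rw [← hj, s.inv]
  have h3 : s.g (Sum.inl j) = - s.g (Sum.inl i) := by rw [← hj, s.gs]
  rw [cov_eq hj, cov_eq h2, h3]
  ring

theorem cov_ne {s : St (Lab L)} (hs : AllIdle s) (x : ℤ) : cov s x ≠ x := by
  obtain ⟨i, m, rfl⟩ := exists_pos L x
  obtain ⟨j, hj⟩ := Exq.partner_strand hs i
  rw [cov_eq hj]
  intro h
  have := (pos_inj h).1
  subst this
  exact s.ne _ hj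

theorem cov_per {s : St (Lab L)} (hs : AllIdle s) (x : ℤ) : cov s (x + L) = cov s x + L := by
  obtain ⟨i, m, rfl⟩ := exists_pos L x
  obtain ⟨j, hj⟩ := Exq.partner_strand hs i
  rw [show (i : ℤ) + m * L + L = (i : ℤ) + (m + 1) * L by ring, cov_eq hj, cov_eq hj]
  ring

theorem cov_rot {s : St (Lab L)} (hs : AllIdle s) (x : ℤ) :
    cov (Pool.Agent.H65.Perc.rot s) x = cov s (x + 1) - 1 := by
  obtain ⟨i, m, rfl⟩ := exists_pos L x
  obtain ⟨j', hj'⟩ := Exq.partner_strand hs (finRotate L i)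
  obtain ⟨j, rfl⟩ := (finRotate L).surjective j'
  have hp : (Pool.Agent.H65.Perc.rot s).p (Sum.inl i) = Sum.inl j := by
    rw [Exq.rot_p, Equiv.symm_apply_eq]
    exact hj'
  have hg := Exq.rot_g s (Sum.inl i)
  rw [Exq.rho_inl, hj'] at hg
  simp only [Sum.inl.injEq] at hg
  have hi := Exq.finRotate_val i
  have hj := Exq.finRotate_val j
  have hi' : ((finRotate L i : ℕ) : ℤ) + (if finRotate L i = 0 then (L : ℤ) else 0) = i + 1 := by
    exact_mod_cast hi
  have hj' : ((finRotate L j : ℕ) : ℤ) + (if finRotate L j = 0 then (L : ℤ) else 0) = j + 1 := by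
    exact_mod_cast hj
  rw [cov_eq hp, hg]
  have e1 : (i : ℤ) + m * L + 1
      = ((finRotate L i : ℕ) : ℤ) + (m + (if finRotate L i = 0 then 1 else 0)) * L := by
    split_ifs at hi' ⊢ <;> linarith
  rw [e1, cov_eq ‹_›]
  split_ifs at hj' ⊢ <;> linarith

theorem cov_inj {s s' : St (Lab L)} (hs : AllIdle s) (hs' : AllIdle s') (h : cov s = cov s') :
    s = s' := by
  have h0 : ∀ i : Fin L, s.p (Sum.inl i) = s'.p (Sum.inl i) ∧ s.g (Sum.inl i) = s'.g (Sum.inl i) := by
    intro i
    obtain ⟨j, hj⟩ := Exq.partner_strand hs i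
    obtain ⟨j', hj'⟩ := Exq.partner_strand hs' i
    have h1 := congrFun h ((i : ℤ) + 0 * L)
    rw [cov_eq hj, cov_eq hj'] at h1
    obtain ⟨h2, h3⟩ := pos_inj h1
    rw [hj, hj', h2]
    exact ⟨rfl, by linarith⟩
  have hy : ∀ {t : St (Lab L)}, AllIdle t → ∀ k, t.p (ly k) = lx k ∧ t.g (ly k) = 0 := by
    intro t ht k
    have h1 := t.inv (lx k)
    have h2 := t.gs (lx k)
    rw [(ht k).1] at h1 h2
    rw [(ht k).2, neg_zero] at h2
    exact ⟨h1, h2⟩
  ext w
  · rcases w with i | ⟨k, b⟩
    · exact (h0 i).1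
    · cases b
      · exact (hs k).1.trans (hs' k).1.symm
      · exact (hy hs k).1.trans (hy hs' k).1.symm
  · rcases w with i | ⟨k, b⟩
    · exact (h0 i).2
    · cases b
      · exact (hs k).2.trans (hs' k).2.symm
      · exact (hy hs k).2.trans (hy hs' k).2.symm

/-- no arc of a flat state leaves its block -/
theorem cov_nc_flat {s : St (Lab L)} (hs : Flat s) (x y : ℤ) (h1 : x < y) (h2 : y < cov s x) :
    x < cov s y ∧ cov s y < cov s x := by
  obtain ⟨hid, hg, hnc⟩ := hs
  obtain ⟨i, m, rfl⟩ := exists_pos L x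
  obtain ⟨j, n, rfl⟩ := exists_pos L y
  obtain ⟨k, hk⟩ := Exq.partner_strand hid i
  obtain ⟨l, hl⟩ := Exq.partner_strand hid j
  rw [cov_eq hk, hg, add_zero] at *
  rw [cov_eq hl, hg, add_zero]
  have bi := i.isLt; have bj := j.isLt; have bk := k.isLt; have bl := l.isLt
  have hL : (0 : ℤ) < L := Lpos
  -- same block
  have hmn : m = n := by
    rcases lt_trichotomy m n with h | h | h
    · exfalso
      have : (m + 1) * (L : ℤ) ≤ n * L := mul_le_mul_of_nonneg_right (by omega) hL.le
      have h3 : (k : ℤ) < L := by exact_mod_cast bk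
      have h4 : (0 : ℤ) ≤ (j : ℤ) := by positivity
      nlinarith
    · exact h
    · exfalso
      have : (n + 1) * (L : ℤ) ≤ m * L := mul_le_mul_of_nonneg_right (by omega) hL.le
      have h3 : (j : ℤ) < L := by exact_mod_cast bj
      have h4 : (0 : ℤ) ≤ (i : ℤ) := by positivity
      nlinarith
  subst hmn
  have hij : i < j := by
    have : (i : ℤ) < j := by linarith
    exact_mod_cast this
  have hjk : j < k := by
    have : (j : ℤ) < k := by linarith
    exact_mod_cast this
  have hlj : s.p (Sum.inl l) = Sum.inl j := by rw [← hl, s.inv]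
  have hki : s.p (Sum.inl k) = Sum.inl i := by rw [← hk, s.inv]
  have e1 : l ≠ i := by
    rintro rfl
    rw [hk] at hlj
    simp only [Sum.inl.injEq] at hlj
    omega
  have e2 : l ≠ k := by
    rintro rfl
    rw [hki] at hlj
    simp only [Sum.inl.injEq] at hlj
    omega
  have h5 : i < l := by
    by_contra hcon
    have : l < i := lt_of_le_of_ne (not_lt.1 hcon) e1
    exact hnc l i j k this hij hjk ⟨hlj, hk⟩
  have h6 : l < k := by
    by_contra hcon
    have : k < l := lt_of_le_of_ne (not_lt.1 hcon) (Ne.symm e2)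
    exact hnc i j k l hij hjk this ⟨hk, hl⟩
  have h5' : (i : ℤ) < l := by exact_mod_cast h5
  have h6' : (l : ℤ) < k := by exact_mod_cast h6
  constructor <;> linarith

theorem cov_nc_iterate {s : St (Lab L)} (hs : Flat s) (m : ℕ) :
    ∀ (x y : ℤ), x < y → y < cov (Pool.Agent.H65.Perc.rot^[m] s) x →
    x < cov (Pool.Agent.H65.Perc.rot^[m] s) y ∧
      cov (Pool.Agent.H65.Perc.rot^[m] s) y < cov (Pool.Agent.H65.Perc.rot^[m] s) x := by
  induction m with
  | zero => exact cov_nc_flat hs
  | succ m ih =>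
    intro x y h1 h2
    rw [Function.iterate_succ_apply'] at *
    have hid : AllIdle (Pool.Agent.H65.Perc.rot^[m] s) := (Exq.allIdle_iterate s m).2 hs.1
    rw [cov_rot hid] at *
    rw [cov_rot hid]
    have := ih (x + 1) (y + 1) (by linarith) (by linarith)
    constructor <;> linarith [this.1, this.2]

theorem cov_nc {s : St (Lab L)} (hs : Planar s) (x y : ℤ) (h1 : x < y) (h2 : y < cov s x) :
    x < cov s y ∧ cov s y < cov s x := by
  obtain ⟨m, s0, h0, rfl, -⟩ := hs.exists_flat
  exact cov_nc_iterate h0 m x y h1 h2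

/-- the state of a pattern -/
def ofPat (π : Pat L) : St (Lab L) where
  p w := match w with
    | Sum.inl i => Sum.inl (modFin (π.t i))
    | Sum.inr (k, b) => Sum.inr (k, !b)
  g w := match w with
    | Sum.inl i => π.t i / L
    | Sum.inr _ => 0
  inv w := by
    rcases w with i | ⟨k, b⟩
    · have h1 := modFin_spec (L := L) (π.t i)
      have h2 : ((modFin (π.t i) : Fin L) : ℤ) = π.t i + L * (-(π.t i / L)) := by linarith
      have h3 : π.t ((modFin (π.t i) : Fin L) : ℤ) = i + (-(π.t i / L)) * L := by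
        rw [h2, per_mul, π.inv]; ring
      simp only
      rw [h3, modFin_add]
    · simp
  ne w := by
    rcases w with i | ⟨k, b⟩
    · simp only [ne_eq, Sum.inl.injEq]
      intro h
      have h1 := modFin_spec (L := L) (π.t i)
      rw [h] at h1
      exact not_dvd_t_sub π i ⟨π.t i / L, by linarith⟩
    · simp
  gs w := by
    rcases w with i | ⟨k, b⟩
    · have h1 := modFin_spec (L := L) (π.t i)
      have h2 : ((modFin (π.t i) : Fin L) : ℤ) = π.t i + L * (-(π.t i / L)) := by linarith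
      have h3 : π.t ((modFin (π.t i) : Fin L) : ℤ) = i + (-(π.t i / L)) * L := by
        rw [h2, per_mul, π.inv]; ring
      simp only
      rw [h3, div_add]
    · simp

theorem ofPat_p (π : Pat L) (i : Fin L) : (ofPat π).p (Sum.inl i) = Sum.inl (modFin (π.t i)) := rfl
theorem ofPat_g (π : Pat L) (i : Fin L) : (ofPat π).g (Sum.inl i) = π.t i / L := rfl

theorem ofPat_idle (π : Pat L) : AllIdle (ofPat π) := fun _ => ⟨rfl, rfl⟩

theorem cov_ofPat (π : Pat L) : cov (ofPat π) = π.t := by
  funext x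
  obtain ⟨i, m, rfl⟩ := exists_pos L x
  rw [cov_eq (ofPat_p π i), ofPat_g, mul_comm m, per_mul]
  have h1 := modFin_spec (L := L) (π.t i)
  linarith

theorem rot_ofPat (π : Pat L) : Pool.Agent.H65.Perc.rot (ofPat π) = ofPat π.rot := by
  apply cov_inj ((allIdle_rot _).2 (ofPat_idle π)) (ofPat_idle _)
  funext x
  rw [cov_rot (ofPat_idle π), cov_ofPat, cov_ofPat]
  rfl

theorem iterate_ofPat (π : Pat L) (m : ℕ) :
    Pool.Agent.H65.Perc.rot^[m] (ofPat π) = ofPat (Pat.rot^[m] π) := by
  induction m with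
  | zero => rfl
  | succ m ih => rw [Function.iterate_succ_apply', ih, rot_ofPat, Function.iterate_succ_apply']

omit [NeZero L] in
theorem iterate_t (π : Pat L) (m : ℕ) (x : ℤ) : (Pat.rot^[m] π).t x = π.t (x + m) - m := by
  induction m generalizing x with
  | zero => simp
  | succ m ih =>
    rw [Function.iterate_succ_apply']
    change (Pat.rot^[m] π).t (x + 1) - 1 = _
    rw [ih]
    push_cast
    rw [show x + 1 + (m : ℤ) = x + (m + 1) by ring]
    ring

/-- a gap which is not covered -/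
theorem exists_gap (π : Pat L) : ∃ c : ℕ, ∀ x : ℤ, x < c ↔ π.t x < c := by
  classical
  have hL : (0 : ℤ) < L := Lpos
  obtain ⟨x0, -, hx0⟩ := Finset.exists_max_image (Finset.univ : Finset (Fin L))
    (fun i => π.t i - i) ⟨0, Finset.mem_univ _⟩
  have hmax : ∀ y : ℤ, π.t y - y ≤ π.t x0 - x0 := by
    intro y
    obtain ⟨i, m, rfl⟩ := exists_pos L y
    rw [mul_comm m, per_mul]
    have := hx0 i (Finset.mem_univ _)
    linarith
  have h1 : ∀ y : ℤ, y < π.t x0 + 1 → π.t y < π.t x0 + 1 := by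
    intro y hy
    by_contra hcon
    have h2 : y ≠ π.t x0 := by
      rintro rfl
      rw [π.inv] at hcon
      have h3 := hmax (π.t x0)
      rw [π.inv] at h3
      omega
    have h3 := π.nc y (π.t x0) (by omega) (by omega)
    rw [π.inv] at h3
    have := hmax y
    omega
  have h2 : ∀ y : ℤ, y < π.t x0 + 1 ↔ π.t y < π.t x0 + 1 := by
    intro y
    refine ⟨h1 y, fun h => ?_⟩
    have := h1 _ h
    rwa [π.inv] at this
  -- move the gap to a nonnegative position
  set c : ℤ := π.t x0 + 1 with hc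
  refine ⟨(c % L).toNat, fun x => ?_⟩
  rw [Int.toNat_of_nonneg (Int.emod_nonneg _ hL.ne')]
  have h4 : c = c % L + L * (c / L) := (Int.emod_add_mul_ediv c L).symm
  have h3 := h2 (x + L * (c / L))
  rw [per_mul] at h3
  constructor
  · intro h
    have := h3.1 (by linarith)
    linarith
  · intro h
    have := h3.2 (by linarith)
    linarith

theorem flat_of_gap (π : Pat L) (h : ∀ x : ℤ, x < 0 ↔ π.t x < 0) : Flat (ofPat π) := by
  have hL : (0 : ℤ) < L := Lpos
  have h' : ∀ x : ℤ, x < L ↔ π.t x < L := by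
    intro x
    have h1 := h (x + L * (-1))
    rw [per_mul] at h1
    constructor
    · intro h2
      have := h1.1 (by linarith)
      linarith
    · intro h2
      have := h1.2 (by linarith)
      linarith
  have hb : ∀ i : Fin L, 0 ≤ π.t i ∧ π.t i < L := by
    intro i
    have h1 : (i : ℤ) < L := by exact_mod_cast i.isLt
    have h2 : (0 : ℤ) ≤ i := by positivity
    refine ⟨?_, (h' i).1 h1⟩
    by_contra hcon
    have := (h i).2 (not_le.1 hcon)
    omega
  have hg : ∀ i : Fin L, (ofPat π).g (Sum.inl i) = 0 := fun i => by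
    rw [ofPat_g]
    exact Int.ediv_eq_zero_of_lt (hb i).1 (hb i).2
  refine ⟨ofPat_idle π, hg, ?_⟩
  rintro i j k l hij hjk hkl ⟨h1, h2⟩
  have e1 : π.t i = k := by
    have := cov_eq h1 0
    rw [hg, cov_ofPat] at this
    simpa using this
  have e2 : π.t j = l := by
    have := cov_eq h2 0
    rw [hg, cov_ofPat] at this
    simpa using this
  have := π.nc i j (by exact_mod_cast hij) (by rw [e1]; exact_mod_cast hjk)
  rw [e1, e2] at this
  have h3 : (k : ℤ) < l := by exact_mod_cast hkl
  omega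

theorem ofPat_planar (π : Pat L) : Planar (ofPat π) := by
  obtain ⟨c, hc⟩ := exists_gap π
  refine ⟨c, ?_⟩
  rw [iterate_ofPat]
  apply flat_of_gap
  intro x
  rw [iterate_t]
  have := hc (x + c)
  constructor
  · intro h
    have := this.1 (by linarith)
    linarith
  · intro h
    have := this.2 (by linarith)
    linarith

end basic

end Brid

open Brid

/-- (1) planar states and noncrossing periodic involutions are the same thing -/
theorem exists_toPat (L : ℕ) [NeZero L] : ∃ T : PX L ≃ Pat L, ∀ x : PX L, (T x).t = cov x.1 := by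
  refine ⟨⟨fun x => ⟨cov x.1, cov_inv x.2.allIdle, cov_ne x.2.allIdle, cov_per x.2.allIdle,
    cov_nc x.2⟩, fun π => ⟨ofPat π, ofPat_planar π⟩, fun x => ?_, fun π => ?_⟩, fun x => rfl⟩
  · apply Subtype.ext
    exact cov_inj (ofPat_idle _) x.2.allIdle (cov_ofPat _)
  · exact Pat.ext (cov_ofPat _)

noncomputable def toPat {L : ℕ} [NeZero L] : PX L ≃ Pat L := (exists_toPat L).choose

theorem toPat_t {L : ℕ} [NeZero L] (x : PX L) : (toPat x).t = cov x.1 :=
  (exists_toPat L).choose_spec x

/-- (2) rotation (planarity of `rot s`: `planar_rot` in Pool.Agent.H65.Perc.Exp) -/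
theorem toPat_rot {L : ℕ} [NeZero L] (x : PX L) (h : Planar (Pool.Agent.H65.Perc.rot x.1)) :
    toPat ⟨Pool.Agent.H65.Perc.rot x.1, h⟩ = (toPat x).rot := by
  apply Pat.ext
  rw [toPat_t]
  funext z
  change cov (Pool.Agent.H65.Perc.rot x.1) z = (toPat x).t (z + 1) - 1
  rw [toPat_t, cov_rot x.2.allIdle]

namespace Brid

theorem join_idle {L : ℕ} [NeZero L] {a b : Fin L} (hab : a ≠ b) {s : St (Lab L)}
    (hs : AllIdle s) : AllIdle (St.join (Sum.inl a) (Sum.inl b) s) := by
  have hne : (Sum.inl a : Lab L) ≠ Sum.inl b := fun h => hab (Sum.inl.inj h)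
  obtain ⟨a', ha⟩ := Exq.partner_strand hs a
  obtain ⟨b', hb⟩ := Exq.partner_strand hs b
  intro k
  rw [St.join_p hne, St.join_g hne, ha, hb]
  simp only [lx, reduceCtorEq, if_false, or_self]
  exact hs k

/-- `join` of two adjacent strands on the universal cover -/
theorem cov_join {L : ℕ} [NeZero L] (i : ℕ) (hi : i + 1 < L) {s : St (Lab L)} (hs : AllIdle s)
    (x : ℤ) :
    cov (St.join (Sum.inl ⟨i, by omega⟩) (Sum.inl ⟨i + 1, hi⟩) s) x = eFun L i (cov s) x := by
  set a : Fin L := ⟨i, by omega⟩ with ha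
  set b : Fin L := ⟨i + 1, hi⟩ with hb
  have hab : a ≠ b := by
    intro h
    have := congrArg Fin.val h
    simp [ha, hb] at this
  have hne : (Sum.inl a : Lab L) ≠ Sum.inl b := fun h => hab (Sum.inl.inj h)
  have va : (a : ℤ) = i := by simp [ha]
  have vb : (b : ℤ) = i + 1 := by simp [hb]
  obtain ⟨a', ha'⟩ := Exq.partner_strand hs a
  obtain ⟨b', hb'⟩ := Exq.partner_strand hs b
  obtain ⟨k, m, rfl⟩ := exists_pos L x
  obtain ⟨k', hk'⟩ := Exq.partner_strand hs k
  have hp := St.join_p hne s (Sum.inl k)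
  have hg := St.join_g hne s (Sum.inl k)
  rw [ha', hb', hk'] at hp
  rw [ha', hb'] at hg
  simp only [Sum.inl.injEq] at hp hg
  -- residues
  have hL : (0 : ℤ) < L := Lpos
  have resA : ∀ (q : Fin L) (n : ℤ), ((q : ℤ) + n * L - i) % L = 0 ↔ q = a := by
    intro q n
    constructor
    · intro h
      obtain ⟨c, hc⟩ := Int.dvd_of_emod_eq_zero h
      have : (q : ℤ) + n * L = (a : ℤ) + c * L := by rw [va]; linarith
      exact (pos_inj this).1
    · rintro rfl
      rw [va, show (i : ℤ) + n * L - i = n * L by ring, Int.mul_emod_left]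
  have resB : ∀ (q : Fin L) (n : ℤ), ((q : ℤ) + n * L - i - 1) % L = 0 ↔ q = b := by
    intro q n
    constructor
    · intro h
      obtain ⟨c, hc⟩ := Int.dvd_of_emod_eq_zero h
      have : (q : ℤ) + n * L = (b : ℤ) + c * L := by rw [vb]; linarith
      exact (pos_inj this).1
    · rintro rfl
      rw [vb, show (i : ℤ) + 1 + n * L - i - 1 = n * L by ring, Int.mul_emod_left]
  unfold eFun
  rw [cov_eq hk']
  simp only [resA, resB]
  by_cases h1 : k = a
  · rw [if_pos h1] at hp ⊢
    rw [if_pos (Or.inl h1)] at hg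
    rw [cov_eq hp, hg, h1, va, vb]
    ring
  by_cases h2 : k = b
  · rw [if_neg h1, if_pos h2] at hp ⊢
    rw [if_pos (Or.inr h2)] at hg
    rw [cov_eq hp, hg, h2, va, vb]
    ring
  rw [if_neg h1, if_neg h2] at hp ⊢
  rw [if_neg (by tauto)] at hg
  have hka : k = a' ↔ k' = a := by
    constructor
    · rintro rfl
      have := s.inv (Sum.inl a)
      rw [ha', hk'] at this
      exact Sum.inl.inj this
    · rintro rfl
      have := s.inv (Sum.inl k)
      rw [hk', ha'] at this
      exact (Sum.inl.inj this).symm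
  have hkb : k = b' ↔ k' = b := by
    constructor
    · rintro rfl
      have := s.inv (Sum.inl b)
      rw [hb', hk'] at this
      exact Sum.inl.inj this
    · rintro rfl
      have := s.inv (Sum.inl k)
      rw [hk', hb'] at this
      exact (Sum.inl.inj this).symm
  by_cases h3 : k' = a
  · have h3' := hka.2 h3
    rw [if_pos h3'] at hp hg
    rw [if_pos h3]
    have hgk : s.g (Sum.inl k) = - s.g (Sum.inl a) := by
      have := s.gs (Sum.inl a)
      rwa [ha', ← h3'] at this
    rw [cov_eq hp, hg, h3, hgk,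
      show (a : ℤ) + (m + -s.g (Sum.inl a)) * L + 1 = (b : ℤ) + (m + -s.g (Sum.inl a)) * L by
        rw [va, vb]; ring, cov_eq hb']
    ring
  by_cases h4 : k' = b
  · have h4' := hkb.2 h4
    have h3' : ¬ k = a' := fun h => h3 (hka.1 h)
    rw [if_neg h3', if_pos h4'] at hp hg
    rw [if_neg h3, if_pos h4]
    have hgk : s.g (Sum.inl k) = - s.g (Sum.inl b) := by
      have := s.gs (Sum.inl b)
      rwa [hb', ← h4'] at this
    rw [cov_eq hp, hg, h4, hgk,
      show (b : ℤ) + (m + -s.g (Sum.inl b)) * L - 1 = (a : ℤ) + (m + -s.g (Sum.inl b)) * L by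
        rw [va, vb]; ring, cov_eq ha']
    ring
  · rw [if_neg (fun h => h3 (hka.1 h)), if_neg (fun h => h4 (hkb.1 h))] at hp hg
    rw [if_neg h3, if_neg h4, cov_eq hp, hg]

theorem join_eq {L : ℕ} [NeZero L] (i : ℕ) (hi : i + 1 < L) (x : PX L) :
    St.join (Sum.inl ⟨i, by omega⟩) (Sum.inl ⟨i + 1, hi⟩) x.1
      = (toPat.symm (e (i : ℤ) (toPat x))).1 := by
  have hab : (⟨i, by omega⟩ : Fin L) ≠ ⟨i + 1, hi⟩ := by
    intro h
    have := congrArg Fin.val h
    simp at this
  apply cov_inj (join_idle hab x.2.allIdle) (toPat.symm (e (i : ℤ) (toPat x))).2.allIdle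
  rw [← toPat_t, Equiv.apply_symm_apply]
  funext z
  rw [cov_join i hi x.2.allIdle, e, dif_pos (by omega)]
  simp only
  rw [toPat_t]

end Brid

/-- (3) joining two adjacent strands keeps the state planar ... -/
theorem planar_join {L : ℕ} [NeZero L] (i : ℕ) (hi : i + 1 < L) {s : St (Lab L)} (hs : Planar s) :
    Planar (St.join (Sum.inl ⟨i, by omega⟩) (Sum.inl ⟨i + 1, hi⟩) s) := by
  rw [Brid.join_eq i hi ⟨s, hs⟩]
  exact (toPat.symm (e (i : ℤ) (toPat ⟨s, hs⟩))).2

/-- ... and is the Temperley-Lieb generator `e i` -/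
theorem toPat_join {L : ℕ} [NeZero L] (i : ℕ) (hi : i + 1 < L) (x : PX L) :
    toPat ⟨St.join (Sum.inl ⟨i, by omega⟩) (Sum.inl ⟨i + 1, hi⟩) x.1, planar_join i hi x.2⟩
      = e (i : ℤ) (toPat x) := by
  rw [← Equiv.eq_symm_apply]
  exact Subtype.ext (Brid.join_eq i hi x)

end Pool.Agent.H51.TA
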