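import Mathlib
import Pool.Agent.H65.Perc.Closure
import Pool.Agent.H65.Perc.Reset

/-!
# Inhomogeneous row operators (one parameter per strand), loop weight 1
-/

namespace Pool.Agent.H82.Arm

open Pool.Agent.H65.Perc St

section General

variable {Λ : Type*} [DecidableEq Λ]

theorem opR_symm (t a : ℝ) (u y : Λ) : opR t a u y = opR t a y u := by
  unfold opR; rw [opP_comm, opE_comm]

/-- product of the crossings along a list of strands, with one parameter per strand -/
noncomputable def opKi (a : Λ → ℝ) (us : List Λ) (y : Λ) : Op Λ :=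
  (us.map (fun u => opR 1 (a u) u y)).prod

theorem opKi_nil (a : Λ → ℝ) (y : Λ) : opKi a [] y = 1 := rfl
theorem opKi_cons (a : Λ → ℝ) (u : Λ) (us : List Λ) (y : Λ) :
    opKi a (u :: us) y = opR 1 (a u) u y * opKi a us y := by simp [opKi]
theorem opKi_append (a : Λ → ℝ) (us vs : List Λ) (y : Λ) :
    opKi a (us ++ vs) y = opKi a us y * opKi a vs y := by simp [opKi]

theorem opKi_congr {a b : Λ → ℝ} {us : List Λ} (y : Λ) (h : ∀ u ∈ us, a u = b u) :
    opKi a us y = opKi b us y := by
  unfold opKi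
  congr 1
  apply List.map_congr_left
  intro u hu
  rw [h u hu]

theorem opKi_comm_of (a : Λ → ℝ) (us : List Λ) (y : Λ) (Z : Op Λ)
    (h : ∀ u ∈ us, opR 1 (a u) u y * Z = Z * opR 1 (a u) u y) :
    opKi a us y * Z = Z * opKi a us y := by
  induction us with
  | nil => simp [opKi_nil]
  | cons u us ih =>
    rw [opKi_cons, mul_assoc, ih (fun v hv => h v (List.mem_cons_of_mem _ hv)), ← mul_assoc,
      h u List.mem_cons_self, mul_assoc]

/-- exchange of two neighbouring strands -/
theorem opKi_exchange (a : Λ → ℝ) {l1 l2 : List Λ} {u v y : Λ}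
    (hn : (l1 ++ u :: v :: l2).Nodup) (hy : y ∉ l1 ++ u :: v :: l2) {κ : ℝ}
    (hκ : κ * (1 - a v * (1 - a u)) = a v * (1 - a u) - a u * (1 - a v)) :
    (1 + κ • opE 1 u v) * opKi a (l1 ++ u :: v :: l2) y
      = opKi (a ∘ Equiv.swap u v) (l1 ++ u :: v :: l2) y * (1 + κ • opE 1 u v) := by
  have hyn : ∀ w ∈ l1 ++ u :: v :: l2, y ≠ w := fun w hw h => hy (h ▸ hw)
  have hyu : y ≠ u := hyn u (by simp)
  have hyv : y ≠ v := hyn v (by simp)
  have huv : u ≠ v := by
    have := (List.nodup_append.1 hn).2.1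
    rw [List.nodup_cons] at this
    exact fun h => this.1 (by simp [h])
  have h1 : ∀ w ∈ l1, w ≠ u ∧ w ≠ v := by
    intro w hw
    have := (List.nodup_append.1 hn).2.2 w hw
    exact ⟨this u (by simp), this v (by simp)⟩
  have h2 : ∀ w ∈ l2, w ≠ u ∧ w ≠ v := by
    have h3 := (List.nodup_append.1 hn).2.1
    rw [List.nodup_cons, List.nodup_cons] at h3
    intro w hw
    refine ⟨fun h => h3.1 (by simp [← h, hw]), fun h => h3.2.1 (h ▸ hw)⟩
  have c1 : ∀ (b : Λ → ℝ) (l : List Λ), (∀ w ∈ l, w ≠ u ∧ w ≠ v) → (∀ w ∈ l, y ≠ w) →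
      opKi b l y * (1 + κ • opE 1 u v) = (1 + κ • opE 1 u v) * opKi b l y := by
    intro b l hl hyl
    apply opKi_comm_of
    intro w hw
    rw [mul_add, add_mul, mul_smul_comm, smul_mul_assoc, mul_one, one_mul,
      opR_opE_disj 1 (b w) (u := w) (v := y) (w := u) (z := v) (hyl w hw).symm (hl w hw).1
        (hl w hw).2 hyu hyv huv]
  have b1 : ∀ l : List Λ, (∀ w ∈ l, w ≠ u ∧ w ≠ v) →
      opKi (a ∘ Equiv.swap u v) l y = opKi a l y := by
    intro l hl
    apply opKi_congr
    intro w hw
    rw [Function.comp_apply, Equiv.swap_apply_of_ne_of_ne (hl w hw).1 (hl w hw).2]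
  have yb := ybe 1 (a := a u) (a' := a v) (κ := κ) (u := y) (y := u) (y' := v) hyu hyv huv hκ
  rw [opR_symm 1 (a u) y u, opR_symm 1 (a v) y v, opR_symm 1 (a v) y u, opR_symm 1 (a u) y v] at yb
  rw [opKi_append, opKi_append, opKi_cons, opKi_cons, opKi_cons, opKi_cons, b1 l1 h1, b1 l2 h2]
  simp only [Function.comp_apply, Equiv.swap_apply_left, Equiv.swap_apply_right]
  calc (1 + κ • opE 1 u v) * (opKi a l1 y * (opR 1 (a u) u y * (opR 1 (a v) v y * opKi a l2 y)))
      = ((1 + κ • opE 1 u v) * opKi a l1 y) * (opR 1 (a u) u y * (opR 1 (a v) v y * opKi a l2 y)) := by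
        rw [mul_assoc]
    _ = opKi a l1 y * (((1 + κ • opE 1 u v) * (opR 1 (a u) u y * opR 1 (a v) v y)) * opKi a l2 y) := by
        rw [← c1 a l1 h1 (fun w hw => hyn w (by simp [hw]))]; simp only [mul_assoc]
    _ = opKi a l1 y * ((opR 1 (a v) u y * opR 1 (a u) v y) * ((1 + κ • opE 1 u v) * opKi a l2 y)) := by
        rw [yb]; simp only [mul_assoc]
    _ = opKi a l1 y * ((opR 1 (a v) u y * opR 1 (a u) v y) * (opKi a l2 y * (1 + κ • opE 1 u v))) := by
        rw [c1 a l2 h2 (fun w hw => hyn w (by simp [hw]))]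
    _ = _ := by simp only [mul_assoc]

/-- the row operator for the horizontal line with ends `x`, `y` -/
noncomputable def opTi (a : Λ → ℝ) (us : List Λ) (x y : Λ) : Op Λ :=
  opE 1 x y * opKi a us y * (opG x 1 * opE 1 x y)

theorem opTi_exchange (a : Λ → ℝ) {l1 l2 : List Λ} {u v x y : Λ}
    (hn : (l1 ++ u :: v :: l2).Nodup) (hx : x ∉ l1 ++ u :: v :: l2)
    (hy : y ∉ l1 ++ u :: v :: l2) (hxy : x ≠ y) {κ : ℝ}
    (hκ : κ * (1 - a v * (1 - a u)) = a v * (1 - a u) - a u * (1 - a v)) :
    (1 + κ • opE 1 u v) * opTi a (l1 ++ u :: v :: l2) x y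
      = opTi (a ∘ Equiv.swap u v) (l1 ++ u :: v :: l2) x y * (1 + κ • opE 1 u v) := by
  have hyn : ∀ w ∈ l1 ++ u :: v :: l2, y ≠ w := fun w hw h => hy (h ▸ hw)
  have hxn : ∀ w ∈ l1 ++ u :: v :: l2, x ≠ w := fun w hw h => hx (h ▸ hw)
  have hyu : y ≠ u := hyn u (by simp)
  have hyv : y ≠ v := hyn v (by simp)
  have hxu : x ≠ u := hxn u (by simp)
  have hxv : x ≠ v := hxn v (by simp)
  have huv : u ≠ v := by
    have := (List.nodup_append.1 hn).2.1
    rw [List.nodup_cons] at this
    exact fun h => this.1 (by simp [h])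
  have cE : (1 + κ • opE 1 u v) * opE 1 x y = opE 1 x y * (1 + κ • opE 1 u v) := by
    rw [add_mul, mul_add, smul_mul_assoc, mul_smul_comm, one_mul, mul_one,
      opE_opE_disj 1 huv hxu.symm hyu.symm hxv.symm hyv.symm hxy]
  have cG : (1 + κ • opE 1 u v) * opG x 1 = opG x 1 * (1 + κ • opE 1 u v) := by
    rw [add_mul, mul_add, smul_mul_assoc, mul_smul_comm, one_mul, mul_one,
      opE_opG_disj 1 huv hxu.symm hxv.symm 1]
  unfold opTi
  calc (1 + κ • opE 1 u v) * (opE 1 x y * opKi a (l1 ++ u :: v :: l2) y * (opG x 1 * opE 1 x y))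
      = ((1 + κ • opE 1 u v) * opE 1 x y) * (opKi a (l1 ++ u :: v :: l2) y * (opG x 1 * opE 1 x y)) := by
        simp only [mul_assoc]
    _ = opE 1 x y * (((1 + κ • opE 1 u v) * opKi a (l1 ++ u :: v :: l2) y) * (opG x 1 * opE 1 x y)) := by
        rw [cE]; simp only [mul_assoc]
    _ = opE 1 x y * (opKi (a ∘ Equiv.swap u v) (l1 ++ u :: v :: l2) y *
          (((1 + κ • opE 1 u v) * opG x 1) * opE 1 x y)) := by
        rw [opKi_exchange a hn hy hκ]; simp only [mul_assoc]
    _ = opE 1 x y * (opKi (a ∘ Equiv.swap u v) (l1 ++ u :: v :: l2) y *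
          (opG x 1 * ((1 + κ • opE 1 u v) * opE 1 x y))) := by
        rw [cG]; simp only [mul_assoc]
    _ = _ := by rw [cE]; simp only [mul_assoc]

theorem opM_opKi (a : Λ → ℝ) (π : Equiv.Perm Λ) (us : List Λ) (y : Λ) (hy : y ∉ us) :
    opM π * opKi (a ∘ π) us y = opKi a (us.map π) (π y) * opM π := by
  induction us with
  | nil => simp [opKi]
  | cons u us ih =>
    rw [List.mem_cons, not_or] at hy
    have h1 : opM π * opR 1 (a (π u)) u y = opR 1 (a (π u)) (π u) (π y) * opM π := by
      unfold opR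
      rw [mul_add, add_mul, mul_smul_comm, mul_smul_comm, smul_mul_assoc, smul_mul_assoc,
        opM_opP, opM_opE 1 π (Ne.symm hy.1)]
    rw [opKi_cons, ← mul_assoc, Function.comp_apply, h1, mul_assoc, ih hy.2, List.map_cons,
      opKi_cons, mul_assoc]

theorem opM_opTi (a : Λ → ℝ) (π : Equiv.Perm Λ) {us : List Λ} {x y : Λ} (hxy : x ≠ y)
    (hy : y ∉ us) :
    opM π * opTi (a ∘ π) us x y = opTi a (us.map π) (π x) (π y) * opM π := by
  unfold opTi
  calc opM π * (opE 1 x y * opKi (a ∘ π) us y * (opG x 1 * opE 1 x y))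
      = (opM π * opE 1 x y) * opKi (a ∘ π) us y * (opG x 1 * opE 1 x y) := by simp only [mul_assoc]
    _ = opE 1 (π x) (π y) * (opM π * opKi (a ∘ π) us y) * (opG x 1 * opE 1 x y) := by
        rw [opM_opE 1 π hxy]; simp only [mul_assoc]
    _ = opE 1 (π x) (π y) * opKi a (us.map π) (π y) * (opM π * opG x 1 * opE 1 x y) := by
        rw [opM_opKi a π us y hy]; simp only [mul_assoc]
    _ = opE 1 (π x) (π y) * opKi a (us.map π) (π y) * (opG (π x) 1 * (opM π * opE 1 x y)) := by
        rw [opM_opG]; simp only [mul_assoc]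
    _ = _ := by rw [opM_opE 1 π hxy]; simp only [mul_assoc]

/-- the rotation lemma: the first crossing can be moved to the end of the row -/
theorem opTi_rotate (a : Λ → ℝ) {u : Λ} {us : List Λ} {x y : Λ} (hxy : x ≠ y) (hux : u ≠ x)
    (huy : u ≠ y) (hu : u ∉ us) (hx : x ∉ us) (hy : y ∉ us) :
    opTi a (u :: us) x y = opG u 1 * opTi a (us ++ [u]) x y * opG u (-1) := by
  -- the crossing seen from the left end of the line
  set t : ℝ := 1 with ht
  set c : ℝ := a u with hc
  set R' : Op Λ := c • opE t u x + (1 - c) • opP u x with hR'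
  have h1 : opE t x y * opR t c u y = opE t x y * R' := by
    have e1 : opE t x y * opP u y = opE t x y * opE t u x := by
      have := opE_opP t (u := y) (v := x) (w := u) hxy.symm huy.symm hux.symm
      rw [opE_comm t y x, opP_comm y u, opE_comm t x u] at this
      exact this
    have e2 : opE t x y * opE t u y = opE t x y * opP u x := by
      have := opE_opP t (u := x) (v := y) (w := u) hxy hux.symm huy.symm
      rw [opP_comm x u, opE_comm t y u] at this
      exact this.symm
    rw [hR']; unfold opR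
    rw [mul_add, mul_add, mul_smul_comm, mul_smul_comm, mul_smul_comm, mul_smul_comm, e1, e2]
  have h2 : opKi a us y * R' = R' * opKi a us y := by
    apply opKi_comm_of
    intro v hv
    have hvy : v ≠ y := fun h => hy (h ▸ hv)
    have hvu : v ≠ u := fun h => hu (h ▸ hv)
    have hvx : v ≠ x := fun h => hx (h ▸ hv)
    rw [hR', mul_add, add_mul, mul_smul_comm, mul_smul_comm, smul_mul_assoc, smul_mul_assoc,
      opR_opE_disj t (a v) hvy hvu hvx huy.symm hxy.symm hux,
      opR_opP_disj t (a v) hvy hvu hvx huy.symm hxy.symm]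
  have h3 : R' * (opG x 1 * opE t x y)
      = opG u 1 * (opR t c u y * (opG x 1 * opE t x y)) * opG u (-1) := by
    have gE : opG u (-1) * opE t x y = opE t x y * opG u (-1) :=
      (opE_opG_disj t hxy hux.symm huy.symm (-1)).symm
    have EE1 : opE t u x * opE t x y = opP u y * opE t x y := by
      have := opE_opE t (u := y) (v := x) (w := u) hxy.symm huy.symm hux.symm
      rw [opE_comm t x u, opE_comm t y x, opP_comm y u] at this
      exact this
    have EE2 : opE t u y * opE t x y = opP u x * opE t x y := by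
      have := opE_opE t (u := x) (v := y) (w := u) hxy hux.symm huy.symm
      rw [opE_comm t y u, opP_comm x u] at this
      exact this
    have Gxy : opG x 1 * opE t x y = opG y (-1) * opE t x y := opG_opE t hxy 1
    have c1 : opE t u x * (opG x 1 * opE t x y)
        = opG u 1 * (opP u y * (opG x 1 * opE t x y)) * opG u (-1) := by
      have l : opE t u x * (opG x 1 * opE t x y) = opP u y * opE t x y * opG u (-1) := by
        have := opE_opG t hux.symm 1
        rw [opE_comm t x u] at this
        rw [← mul_assoc, this, mul_assoc, gE, ← mul_assoc, EE1]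
      have r : opG u 1 * (opP u y * (opG x 1 * opE t x y)) = opP u y * opE t x y := by
        rw [Gxy, ← mul_assoc (opP u y), opP_opG, Equiv.swap_apply_right, mul_assoc (opG u (-1)),
          ← mul_assoc, opG_opG_add]
        simp [opG_zero]
      rw [l, r]
    have c2 : opP u x * (opG x 1 * opE t x y)
        = opG u 1 * (opE t u y * (opG x 1 * opE t x y)) * opG u (-1) := by
      have l : opP u x * (opG x 1 * opE t x y) = opG u 1 * opP u x * opE t x y := by
        rw [← mul_assoc, opP_opG, Equiv.swap_apply_right]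
      have r : opE t u y * (opG x 1 * opE t x y) = opP u x * opE t x y * opG u 1 := by
        have e1 := opE_opG t huy.symm (-1)
        rw [opE_comm t y u, neg_neg] at e1
        have gE' : opG u 1 * opE t x y = opE t x y * opG u 1 :=
          (opE_opG_disj t hxy hux.symm huy.symm 1).symm
        rw [Gxy, ← mul_assoc, e1, mul_assoc, gE', ← mul_assoc, EE2]
      rw [l, r, ← mul_assoc (opG u 1), mul_assoc _ (opG u 1) (opG u (-1)), opG_opG_add]
      simp [opG_zero, mul_assoc]
    rw [hR']; unfold opR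
    simp only [add_mul, mul_add, smul_mul_assoc, mul_smul_comm]
    rw [c1, c2]
  have g1 : opG u 1 * opE t x y = opE t x y * opG u 1 :=
    (opE_opG_disj t hxy hux.symm huy.symm 1).symm
  have g2 : opG u 1 * opKi a us y = opKi a us y * opG u 1 := by
    symm
    apply opKi_comm_of
    intro v hv
    exact opR_opG_disj t (a v) (u := v) (v := y) (w := u) (fun h => hy (h ▸ hv))
      (fun h => hu (h ▸ hv)) huy.symm 1
  unfold opTi
  rw [opKi_cons, opKi_append, ← ht, ← hc, ← mul_assoc (opE t x y) (opR t c u y), h1]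
  have hK1 : opKi a [u] y = opR t c u y := by simp [opKi, ht, hc]
  rw [hK1]
  calc opE t x y * R' * opKi a us y * (opG x 1 * opE t x y)
      = opE t x y * (R' * opKi a us y) * (opG x 1 * opE t x y) := by simp only [mul_assoc]
    _ = opE t x y * opKi a us y * (R' * (opG x 1 * opE t x y)) := by
        rw [← h2]; simp only [mul_assoc]
    _ = opE t x y * (opKi a us y * opG u 1) * (opR t c u y * (opG x 1 * opE t x y))
          * opG u (-1) := by rw [h3]; simp only [mul_assoc]
    _ = (opE t x y * opG u 1) * opKi a us y * (opR t c u y * (opG x 1 * opE t x y))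
          * opG u (-1) := by rw [← g2]; simp only [mul_assoc]
    _ = _ := by rw [← g1]; simp only [mul_assoc]

/-- weight of a row -/
def wrow {L : ℕ} (a : Fin L → ℝ) (row : Fin L → Bool) : ℝ :=
  ∏ i, (if row i then a i else 1 - a i)

theorem opR_bool (a : ℝ) (u y : Λ) (f : St Λ → ℝ) (s : St Λ) :
    (opR 1 a u y f) s = ∑ b : Bool, (if b then a else 1 - a) * f (crossing b u y s) := by
  simp only [opR, LinearMap.add_apply, LinearMap.smul_apply, Pi.add_apply, Pi.smul_apply,
    opP_apply, opE_apply, wt, ite_self, one_mul, smul_eq_mul, Fintype.sum_bool, crossing,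
    if_true, Bool.false_eq_true, if_false]

theorem opKi_row (y : Λ) (b : Λ → ℝ) : ∀ (L : ℕ) (σ : Fin L → Λ) (f : St Λ → ℝ) (s : St Λ),
    (opKi b ((List.finRange L).map σ) y f) s
      = ∑ row : Fin L → Bool, wrow (b ∘ σ) row *
        f ((List.finRange L).foldl (fun s i => crossing (row i) (σ i) y s) s)
  | 0, σ, f, s => by simp [opKi_nil, wrow]
  | L + 1, σ, f, s => by
    rw [List.finRange_succ, List.map_cons, List.map_map, opKi_cons, Module.End.mul_apply,
      opR_bool]
    simp only [opKi_row y b L (σ ∘ Fin.succ) f]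
    rw [← (Fin.consEquiv (fun _ : Fin (L+1) => Bool)).sum_comp, Fintype.sum_prod_type]
    refine Finset.sum_congr rfl (fun b0 _ => ?_)
    rw [Finset.mul_sum]
    refine Finset.sum_congr rfl (fun row _ => ?_)
    simp only [Fin.consEquiv_apply, List.foldl_cons, List.foldl_map, Fin.cons_zero, Fin.cons_succ,
      Function.comp_apply, wrow, Fin.prod_univ_succ]
    ring

end General

end Pool.Agent.H82.Arm
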