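import Mathlib
import Pool.Agent.H65.Perc.Markov
import Pool.Agent.H82.Arm.Row

/-!
# The inhomogeneous Markov chain on planar states and its stationary functional
-/

open Filter Topology

namespace Pool.Agent.H82.Arm

open Pool.Agent.H65.Perc St Exq

variable {L : ℕ}

/-- one parameter per strand, extended to all labels -/
def aL (a : Fin L → ℝ) : Lab L → ℝ := Sum.elim a (fun _ => 0)

theorem aL_swap (a : Fin L → ℝ) (u v : Fin L) :
    aL a ∘ Equiv.swap (Sum.inl u) (Sum.inl v) = aL (a ∘ Equiv.swap u v) := by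
  funext w
  rcases w with w | w
  · simp only [Function.comp_apply, aL, Sum.elim_inl]
    by_cases h1 : w = u
    · subst h1; simp [Equiv.swap_apply_left]
    by_cases h2 : w = v
    · subst h2; simp [Equiv.swap_apply_right]
    rw [Equiv.swap_apply_of_ne_of_ne (by simpa using h1) (by simpa using h2),
      Equiv.swap_apply_of_ne_of_ne h1 h2]
    simp
  · rw [Function.comp_apply, Equiv.swap_apply_of_ne_of_ne (by simp) (by simp)]
    simp [aL]

theorem aL_rho (a : Fin L → ℝ) : aL a ∘ rho L = aL (a ∘ finRotate L) := by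
  funext w
  rcases w with w | w
  · simp [aL, rho_inl]
  · simp [aL, rho_inr]

/-- on idle states the row operator is a weighted sum over all rows -/
theorem opTi_row (a : Fin L → ℝ) (s : St (Lab L)) (hs : AllIdle s) (f : St (Lab L) → ℝ) :
    (opTi (aL a) (strands L) (lx 0) (ly 0) f) s
      = ∑ row : Fin L → Bool, wrow a row * f (rowMap 0 row s) := by
  have hj : join (lx 0) (ly 0) s = s := join_idle (hs 0).1 (hs 0).2
  unfold opTi strands
  rw [Module.End.mul_apply, Module.End.mul_apply, opE_apply, hj]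
  rw [opKi_row]
  simp only [wt, ite_self, one_mul]
  refine Finset.sum_congr rfl (fun row _ => ?_)
  rw [Module.End.mul_apply, opG_apply, opE_apply]
  simp only [wt, ite_self, one_mul]
  rfl

theorem strands_split (i : ℕ) (hi : i + 1 < L) : ∃ l1 l2 : List (Lab L),
    strands L = l1 ++ Sum.inl ⟨i, by omega⟩ :: Sum.inl ⟨i + 1, hi⟩ :: l2 := by
  have hlen : (strands L).length = L := by simp [strands]
  have h1 : i < (strands L).length := by omega
  have h2 : i + 1 < (strands L).length := by omega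
  refine ⟨(strands L).take i, (strands L).drop (i + 2), ?_⟩
  have e1 : (strands L)[i] = Sum.inl ⟨i, by omega⟩ := by simp [strands]
  have e2 : (strands L)[i + 1] = Sum.inl ⟨i + 1, hi⟩ := by simp [strands]
  conv_lhs => rw [← List.take_append_drop i (strands L)]
  rw [List.drop_eq_getElem_cons h1, List.drop_eq_getElem_cons h2, e1, e2]

variable [NeZero L]

/-- rotation covariance -/
theorem opTi_rot (a : Fin L → ℝ) :
    opTi (aL a) (strands L) (lx 0) (ly 0) * opRot
      = opRot * opTi (aL (a ∘ finRotate L)) (strands L) (lx 0) (ly 0) := by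
  obtain ⟨L', rfl⟩ : ∃ L', L = L' + 1 := ⟨L - 1, by have := NeZero.ne L; omega⟩
  unfold opRot
  rw [← aL_rho, mul_assoc (opG _ _), opM_opTi (aL a) (rho (L' + 1)) (lx_ne_ly 0 0) (ly_notin 0),
    rho_lx, rho_ly, strands_rotate]
  have h := opTi_rotate (aL a) (u := (Sum.inl 0 : Lab (L' + 1)))
    (us := (List.finRange L').map (fun i => (Sum.inl i.succ : Lab (L' + 1))))
    (x := lx 0) (y := ly 0) (lx_ne_ly 0 0) (by simp [lx]) (by simp [ly])
    (by simp [Fin.succ_ne_zero]) (by simp [lx]) (by simp [ly])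
  rw [strands_cons, h, mul_assoc, ← mul_assoc (opG _ (-1)), opG_opG_add]
  simp [opG_zero, mul_assoc]

/-- the inhomogeneous row operator on functions of planar states -/
noncomputable def SI (a : Fin L → ℝ) : (PX L → ℝ) →ₗ[ℝ] (PX L → ℝ) where
  toFun f x := ∑ row : Fin L → Bool, wrow a row * f ⟨rowMap 0 row x.1, planar_rowMap x.2 row⟩
  map_add' f g := by
    funext x
    simp only [Pi.add_apply, mul_add, Finset.sum_add_distrib]
  map_smul' c f := by
    funext x
    simp only [Pi.smul_apply, smul_eq_mul, RingHom.id_apply, Finset.mul_sum]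
    exact Finset.sum_congr rfl (fun _ _ => by ring)

theorem SI_apply (a : Fin L → ℝ) (f : PX L → ℝ) (x : PX L) : SI a f x =
    ∑ row : Fin L → Bool, wrow a row * f ⟨rowMap 0 row x.1, planar_rowMap x.2 row⟩ := rfl

/-- relation with the operator on all states -/
theorem SI_eq (a : Fin L → ℝ) (F : St (Lab L) → ℝ) (x : PX L) :
    SI a (resX F) x = opTi (aL a) (strands L) (lx 0) (ly 0) F x.1 := by
  rw [opTi_row a x.1 x.2.allIdle]
  rfl

omit [NeZero L] in
theorem wrow_sum (a : Fin L → ℝ) : ∑ row : Fin L → Bool, wrow a row = 1 := by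
  unfold wrow
  rw [← Fintype.prod_sum (fun (i : Fin L) (b : Bool) => if b then a i else 1 - a i)]
  simp

omit [NeZero L] in
theorem wrow_pos {a : Fin L → ℝ} (ha : ∀ i, a i ∈ Set.Ioo (0 : ℝ) 1) (row : Fin L → Bool) :
    0 < wrow a row := by
  unfold wrow
  refine Finset.prod_pos (fun i _ => ?_)
  have := ha i
  split_ifs
  · exact this.1
  · linarith [this.2]

omit [NeZero L] in
theorem wrow_half (row : Fin L → Bool) : wrow (fun _ => 1 / 2) row = (1 / 2) ^ L := by
  unfold wrow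
  rw [Finset.prod_congr rfl (fun i _ => show (if row i = true then (1 / 2 : ℝ) else 1 - 1 / 2)
    = 1 / 2 by split_ifs <;> norm_num)]
  simp

theorem SI_half : (SI (fun _ => 1 / 2) : (PX L → ℝ) →ₗ[ℝ] (PX L → ℝ)) = SX (1 / 2) := by
  apply LinearMap.ext
  intro f
  funext x
  rw [SI_apply, SX_half_apply, Finset.mul_sum]
  exact Finset.sum_congr rfl (fun row _ => by rw [wrow_half])

/-- the exchange relation, time order -/
theorem SI_exchange (a : Fin L → ℝ) (i : ℕ) (hi : i + 1 < L) {κ : ℝ}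
    (hκ : κ * (1 - a ⟨i + 1, hi⟩ * (1 - a ⟨i, by omega⟩)) = a ⟨i + 1, hi⟩ - a ⟨i, by omega⟩)
    (J : PX L → PX L)
    (hJ : ∀ x, (J x).1 = join (Sum.inl ⟨i, by omega⟩) (Sum.inl ⟨i + 1, hi⟩) x.1)
    (f : PX L → ℝ) :
    SI a f + κ • (SI a f ∘ J)
      = SI (a ∘ Equiv.swap ⟨i, by omega⟩ ⟨i + 1, hi⟩) (f + κ • (f ∘ J)) := by
  obtain ⟨l1, l2, hl⟩ := strands_split (L := L) i hi
  have hn : (l1 ++ (Sum.inl ⟨i, by omega⟩ : Lab L) :: Sum.inl ⟨i + 1, hi⟩ :: l2).Nodup := by
    rw [← hl]; exact strands_nodup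
  have h := opTi_exchange (aL a) (x := lx 0) (y := ly 0) (κ := κ) hn (hl ▸ lx_notin 0)
    (hl ▸ ly_notin 0) (lx_ne_ly 0 0) (by simp only [aL, Sum.elim_inl]; linear_combination hκ)
  rw [← hl, aL_swap] at h
  funext x
  have h1 := congrFun (congrArg (fun Z : Op (Lab L) => Z (extX f)) h) x.1
  simp only [Module.End.mul_apply, LinearMap.add_apply, LinearMap.smul_apply, Pi.add_apply,
    Pi.smul_apply, Module.End.one_apply, opE_apply, smul_eq_mul, wt, ite_self, one_mul] at h1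
  have e1 : ∀ y : PX L, opTi (aL a) (strands L) (lx 0) (ly 0) (extX f) y.1 = SI a f y := by
    intro y
    rw [← SI_eq, resX_extX]
  rw [e1 x, ← hJ x, e1 (J x)] at h1
  rw [Pi.add_apply, Pi.smul_apply, Function.comp_apply, smul_eq_mul, h1, ← SI_eq]
  have e2 : resX (extX f + κ • (opE 1 (Sum.inl ⟨i, by omega⟩) (Sum.inl ⟨i + 1, hi⟩)) (extX f))
      = f + κ • (f ∘ J) := by
    funext y
    simp only [resX, LinearMap.coe_mk, AddHom.coe_mk, Pi.add_apply, Pi.smul_apply, opE_apply,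
      smul_eq_mul, wt, ite_self, one_mul, Function.comp_apply]
    rw [← hJ y, extX_apply y.2, extX_apply (J y).2]
  rw [e2]

/-- rotation of a planar state -/
def rotX (x : PX L) : PX L := ⟨rot x.1, (planar_rot _ x.2.allIdle).2 x.2⟩

theorem SI_rot (a : Fin L → ℝ) (f : PX L → ℝ) :
    SI a (f ∘ rotX) = SI (a ∘ finRotate L) f ∘ rotX := by
  funext x
  have h := congrFun (congrArg (fun Z : Op (Lab L) => Z (extX f)) (opTi_rot a)) x.1
  simp only [Module.End.mul_apply, opRot_apply] at h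
  have e1 : (f ∘ rotX : PX L → ℝ) = resX (opRot (extX f)) := by
    funext y
    change f (rotX y) = opRot (extX f) y.1
    rw [opRot_apply]
    exact (extX_apply (rotX y).2 f).symm
  rw [e1, SI_eq, h, Function.comp_apply]
  have := SI_eq (a ∘ finRotate L) (extX f) (rotX x)
  rw [resX_extX] at this
  rw [this]
  rfl

section Even

variable {n : ℕ} [NeZero n]

theorem doeblin_SI {a : Fin (2 * n) → ℝ} (ha : ∀ i, a i ∈ Set.Ioo (0 : ℝ) 1) :
    ∃ c : ℝ, Doeblin (SI a) (xpi n) c := by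
  obtain ⟨row0, hrow⟩ := exists_reset n
  refine ⟨wrow a row0, ?_, ?_, wrow_pos ha _, ?_⟩
  · funext x
    rw [SI_apply]
    simp [wrow_sum]
  · intro f hf x
    rw [SI_apply]
    exact Finset.sum_nonneg fun row _ => mul_nonneg (wrow_pos ha row).le (hf _)
  · intro f hf x
    rw [SI_apply]
    have h1 : f (xpi n) = f ⟨rowMap 0 row0 x.1, planar_rowMap x.2 row0⟩ := by
      congr 1
      exact Subtype.ext (hrow x.1 x.2.allIdle).symm
    rw [h1]
    exact Finset.single_le_sum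
      (f := fun row => wrow a row * f ⟨rowMap 0 row x.1, planar_rowMap x.2 row⟩)
      (fun row _ => mul_nonneg (wrow_pos ha row).le (hf _)) (Finset.mem_univ row0)

/-- the stationary functional of the inhomogeneous chain -/
noncomputable def nu (a : Fin (2 * n) → ℝ) : (PX (2 * n) → ℝ) →ₗ[ℝ] ℝ :=
  open Classical in
  if h : ∀ i, a i ∈ Set.Ioo (0 : ℝ) 1 then (exists_stationary (doeblin_SI h).choose_spec).choose
  else 0

theorem nu_spec {a : Fin (2 * n) → ℝ} (ha : ∀ i, a i ∈ Set.Ioo (0 : ℝ) 1) :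
    (∀ f : PX (2 * n) → ℝ, ∀ x, Tendsto (fun M : ℕ => ((SI a) ^ M) f x) atTop (𝓝 (nu a f))) ∧
      (∀ f : PX (2 * n) → ℝ, (∀ x, 0 ≤ f x) → 0 ≤ nu a f) ∧ nu a (fun _ => 1) = 1 ∧
      (∀ f, nu a (SI a f) = nu a f) := by
  have h := (exists_stationary (doeblin_SI ha).choose_spec).choose_spec
  unfold nu
  rw [dif_pos ha]
  exact ⟨h.1, h.2.1, h.2.2.1, h.2.2.2.1⟩

theorem nu_unique {a : Fin (2 * n) → ℝ} (ha : ∀ i, a i ∈ Set.Ioo (0 : ℝ) 1)
    (v : (PX (2 * n) → ℝ) →ₗ[ℝ] ℝ) (hv : ∀ f, v (SI a f) = v f) (f : PX (2 * n) → ℝ) :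
    v f = v (fun _ => 1) * nu a f :=
  invariant_eq (nu a) (nu_spec ha).1 v hv f

/-- composition with a map, as a linear map -/
def compX (J : PX (2 * n) → PX (2 * n)) : (PX (2 * n) → ℝ) →ₗ[ℝ] (PX (2 * n) → ℝ) where
  toFun f := f ∘ J
  map_add' _ _ := rfl
  map_smul' _ _ := rfl

theorem nu_exchange {a : Fin (2 * n) → ℝ} (ha : ∀ i, a i ∈ Set.Ioo (0 : ℝ) 1) (i : ℕ)
    (hi : i + 1 < 2 * n) (J : PX (2 * n) → PX (2 * n))
    (hJ : ∀ x, (J x).1 = join (Sum.inl ⟨i, by omega⟩) (Sum.inl ⟨i + 1, hi⟩) x.1)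
    (f : PX (2 * n) → ℝ) :
    (1 - a ⟨i + 1, hi⟩ + a ⟨i, by omega⟩ * a ⟨i + 1, hi⟩) *
        nu (a ∘ Equiv.swap ⟨i, by omega⟩ ⟨i + 1, hi⟩) f
      = (1 - a ⟨i, by omega⟩ + a ⟨i + 1, hi⟩ * a ⟨i, by omega⟩) * nu a f
        + (a ⟨i, by omega⟩ - a ⟨i + 1, hi⟩) * nu a (f ∘ J) := by
  set b : Fin (2 * n) → ℝ := a ∘ Equiv.swap ⟨i, by omega⟩ ⟨i + 1, hi⟩ with hb
  have hbc : ∀ j, b j ∈ Set.Ioo (0 : ℝ) 1 := fun j => ha _
  have hbi : b ⟨i, by omega⟩ = a ⟨i + 1, hi⟩ := by simp [hb]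
  have hbj : b ⟨i + 1, hi⟩ = a ⟨i, by omega⟩ := by simp [hb]
  have hbb : b ∘ Equiv.swap ⟨i, by omega⟩ ⟨i + 1, hi⟩ = a := by
    rw [hb]; funext j; simp
  set x := a ⟨i, by omega⟩ with hx
  set y := a ⟨i + 1, hi⟩ with hy
  have hx1 := ha ⟨i, by omega⟩
  have hy1 := ha ⟨i + 1, hi⟩
  rw [← hx] at hx1
  rw [← hy] at hy1
  have hD : 1 - x * (1 - y) ≠ 0 := by nlinarith [hx1.1, hx1.2, hy1.1, hy1.2]
  obtain ⟨κ, hκ⟩ : ∃ κ : ℝ, κ * (1 - x * (1 - y)) = x - y := ⟨(x - y) / (1 - x * (1 - y)), by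
    field_simp⟩
  have hex := SI_exchange b i hi (κ := κ) (by rw [hbi, hbj]; exact hκ) J hJ
  rw [hbb] at hex
  have h := nu_unique hbc (nu a ∘ₗ (LinearMap.id + κ • compX J)) (fun g => by
    simp only [LinearMap.comp_apply, LinearMap.add_apply, LinearMap.id_apply,
      LinearMap.smul_apply]
    have := hex g
    change nu a (SI b g + κ • (SI b g ∘ J)) = nu a (g + κ • (g ∘ J))
    rw [this, (nu_spec ha).2.2.2]) f
  simp only [LinearMap.comp_apply, LinearMap.add_apply, LinearMap.id_apply,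
      LinearMap.smul_apply] at h
  have h1 : compX J (fun _ => (1 : ℝ)) = fun _ => 1 := rfl
  rw [h1, map_add, map_smul, map_add, map_smul, (nu_spec ha).2.2.1] at h
  simp only [smul_eq_mul, mul_one] at h
  have h2 : compX J f = f ∘ J := rfl
  rw [h2] at h
  have h3 : (1 - x * (1 - y)) * (nu a f + κ * nu a (f ∘ J))
      = (1 - x * (1 - y)) * ((1 + κ) * nu b f) := by rw [h]
  have h4 : (1 - x * (1 - y)) * (1 + κ) = 1 - y + x * y := by linear_combination hκ
  linear_combination -h3 - (nu b f) * h4 + (nu a (f ∘ J)) * hκ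

theorem nu_rot {a : Fin (2 * n) → ℝ} (ha : ∀ i, a i ∈ Set.Ioo (0 : ℝ) 1)
    (f : PX (2 * n) → ℝ) : nu (a ∘ finRotate (2 * n)) f = nu a (f ∘ rotX) := by
  have hb : ∀ i, (a ∘ finRotate (2 * n)) i ∈ Set.Ioo (0 : ℝ) 1 := fun i => ha _
  have h := nu_unique hb (nu a ∘ₗ compX rotX) (fun g => by
    simp only [LinearMap.comp_apply]
    change nu a (SI (a ∘ finRotate (2 * n)) g ∘ rotX) = nu a (g ∘ rotX)
    rw [← SI_rot, (nu_spec ha).2.2.2]) f
  simp only [LinearMap.comp_apply] at h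
  have h1 : compX rotX (fun _ : PX (2 * n) => (1 : ℝ)) = fun _ => 1 := rfl
  rw [h1, (nu_spec ha).2.2.1, one_mul] at h
  exact h.symm

end Even

end Pool.Agent.H82.Arm
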