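import Mathlib
import Pool.Agent.H51.TA.Poly
import Pool.Agent.H82.Arm.Bridge
import Pool.Agent.H82.Arm.Chain

/-!
# TA-M: the inhomogeneous stationary measures on `Pat (2 n)`, and the homogeneous point
-/

open Filter Topology

namespace Pool.Agent.H51.TA

open Pool.Agent.H65.Perc Pool.Agent.H82.Arm

variable {n : ℕ} [NeZero n]

/-- the stationary law of the inhomogeneous chain, as a function on `Pat (2 n)` -/
noncomputable def muP (a : Fin (2 * n) → ℝ) (π : Pat (2 * n)) : ℝ :=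
  nu a (fun x => if toPat x = π then 1 else 0)

theorem nu_eq_sum (a : Fin (2 * n) → ℝ) (f : Pat (2 * n) → ℝ) :
    nu a (fun x => f (toPat x)) = ∑ π, muP a π * f π := by
  have h : (fun x : PX (2 * n) => f (toPat x))
      = ∑ π : Pat (2 * n), f π • (fun x : PX (2 * n) => if toPat x = π then (1 : ℝ) else 0) := by
    funext x
    rw [Finset.sum_apply]
    simp
  rw [h, map_sum]
  refine Finset.sum_congr rfl (fun π _ => ?_)
  rw [map_smul, smul_eq_mul, mul_comm]
  rfl

theorem nu_eq_sum' (a : Fin (2 * n) → ℝ) (f : PX (2 * n) → ℝ) :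
    nu a f = ∑ π, muP a π * f (toPat.symm π) := by
  rw [← nu_eq_sum a (fun π => f (toPat.symm π))]
  simp

/-- joining two neighbouring strands, on planar states -/
noncomputable def joinX (i : ℕ) (hi : i + 1 < 2 * n) (x : PX (2 * n)) : PX (2 * n) :=
  ⟨St.join (Sum.inl ⟨i, by omega⟩) (Sum.inl ⟨i + 1, hi⟩) x.1, planar_join i hi x.2⟩

theorem EX_muP : EX (Set.Ioo (0 : ℝ) 1) (muP (n := n)) := by
  intro a ha i hi α
  have h := nu_exchange ha i hi (joinX i hi) (fun _ => rfl)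
    (fun x => if toPat x = α then 1 else 0)
  have h1 : nu a ((fun x : PX (2 * n) => if toPat x = α then (1 : ℝ) else 0) ∘ joinX i hi)
      = ∑ π with e (i : ℤ) π = α, muP a π := by
    have h2 : ((fun x : PX (2 * n) => if toPat x = α then (1 : ℝ) else 0) ∘ joinX i hi)
        = fun x => (fun π : Pat (2 * n) => if e (i : ℤ) π = α then (1 : ℝ) else 0) (toPat x) := by
      funext x
      simp only [Function.comp_apply]
      rw [show toPat (joinX i hi x) = e (i : ℤ) (toPat x) from toPat_join i hi x]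
    rw [h2, nu_eq_sum a (fun π : Pat (2 * n) => if e (i : ℤ) π = α then (1 : ℝ) else 0),
      Finset.sum_filter]
    refine Finset.sum_congr rfl (fun π _ => ?_)
    simp
  rw [h1] at h
  unfold D
  change _ * muP _ α = _ * muP a α + _ at h
  linear_combination h

theorem ROT_muP : ROT (Set.Ioo (0 : ℝ) 1) (muP (n := n)) := by
  intro a ha π
  unfold muP
  rw [nu_rot ha]
  congr 1
  funext x
  simp only [Function.comp_apply]
  have h : toPat (rotX x) = (toPat x).rot := toPat_rot x _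
  rw [h]
  have hinj : (toPat x).rot = π.rot ↔ toPat x = π := by
    constructor
    · intro h'
      have := congrArg Pat.rotInv h'
      rwa [rotInv_rot, rotInv_rot] at this
    · intro h'; rw [h']
  simp only [hinj]

theorem muP_nonneg {a : Fin (2 * n) → ℝ} (ha : ∀ i, a i ∈ Set.Ioo (0 : ℝ) 1) (π : Pat (2 * n)) :
    0 ≤ muP a π :=
  (nu_spec ha).2.1 _ (fun x => by split_ifs <;> norm_num)

theorem muP_sum {a : Fin (2 * n) → ℝ} (ha : ∀ i, a i ∈ Set.Ioo (0 : ℝ) 1) :
    ∑ π, muP a π = 1 := by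
  have h := nu_eq_sum a (fun _ => (1 : ℝ))
  rw [(nu_spec ha).2.2.1] at h
  simp only [mul_one] at h
  exact h.symm

theorem muP_le_one {a : Fin (2 * n) → ℝ} (ha : ∀ i, a i ∈ Set.Ioo (0 : ℝ) 1) (π : Pat (2 * n)) :
    muP a π ≤ 1 := by
  rw [← muP_sum ha]
  exact Finset.single_le_sum (fun π _ => muP_nonneg ha π) (Finset.mem_univ π)

theorem continuous_SI (f : PX (2 * n) → ℝ) (x : PX (2 * n)) :
    Continuous (fun a : Fin (2 * n) → ℝ => SI a f x) := by
  simp only [SI_apply]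
  refine continuous_finsetSum _ (fun row _ => ?_)
  refine Continuous.mul ?_ continuous_const
  unfold wrow
  refine continuous_finsetProd _ (fun i _ => ?_)
  split_ifs
  · exact continuous_apply i
  · exact continuous_const.sub (continuous_apply i)

/-- limits of stationary laws at the homogeneous point -/
theorem hom_limit (Ψ : (PX (2 * n) → ℝ) →ₗ[ℝ] ℝ)
    (hΨ : ∀ f : PX (2 * n) → ℝ, ∀ x,
      Tendsto (fun M : ℕ => (SX (1 / 2) ^ M) f x) atTop (𝓝 (Ψ f)))
    (u : ℕ → Fin (2 * n) → ℝ) (ν : Pat (2 * n) → ℝ) (hu : ∀ k i, u k i ∈ Set.Ioo (0 : ℝ) 1)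
    (hlim : Tendsto u atTop (𝓝 (fun _ => 1 / 2)))
    (hν : ∀ π, Tendsto (fun k => muP (u k) π) atTop (𝓝 (ν π)))
    (f : Pat (2 * n) → ℝ) : Ψ (fun x => f (toPat x)) = ∑ π, ν π * f π := by
  let v : (PX (2 * n) → ℝ) →ₗ[ℝ] ℝ :=
    { toFun := fun g => ∑ π, ν π * g (toPat.symm π)
      map_add' := fun g h => by
        simp only [Pi.add_apply, mul_add, Finset.sum_add_distrib]
      map_smul' := fun c g => by
        simp only [Pi.smul_apply, smul_eq_mul, RingHom.id_apply, Finset.mul_sum]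
        exact Finset.sum_congr rfl (fun _ _ => by ring) }
  have hv : ∀ g, v g = ∑ π, ν π * g (toPat.symm π) := fun g => rfl
  have hT : ∀ (g : ℕ → PX (2 * n) → ℝ) (g0 : PX (2 * n) → ℝ),
      (∀ x, Tendsto (fun k => g k x) atTop (𝓝 (g0 x))) →
      Tendsto (fun k => nu (u k) (g k)) atTop (𝓝 (v g0)) := by
    intro g g0 hg
    simp only [nu_eq_sum', hv]
    exact tendsto_finsetSum _ (fun π _ => (hν π).mul (hg _))
  have hinv : ∀ g, v (SX (1 / 2) g) = v g := by
    intro g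
    have h1 : Tendsto (fun k => nu (u k) (SI (u k) g)) atTop (𝓝 (v (SX (1 / 2) g))) := by
      refine hT (fun k => SI (u k) g) _ (fun x => ?_)
      rw [← SI_half]
      exact ((continuous_SI g x).tendsto _).comp hlim
    have h2 : Tendsto (fun k => nu (u k) g) atTop (𝓝 (v g)) :=
      hT (fun _ => g) g (fun x => tendsto_const_nhds)
    have h3 : (fun k => nu (u k) (SI (u k) g)) = fun k => nu (u k) g := by
      funext k
      exact (nu_spec (hu k)).2.2.2 g
    rw [h3] at h1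
    exact tendsto_nhds_unique h1 h2
  have hone : v (fun _ => 1) = 1 := by
    have h1 : Tendsto (fun k => nu (u k) (fun _ => (1 : ℝ))) atTop (𝓝 (v (fun _ => 1))) :=
      hT (fun _ => fun _ => 1) _ (fun x => tendsto_const_nhds)
    have h3 : (fun k => nu (u k) (fun _ => (1 : ℝ))) = fun _ => 1 := by
      funext k
      exact (nu_spec (hu k)).2.2.1
    rw [h3] at h1
    exact tendsto_nhds_unique h1 tendsto_const_nhds
  have h := invariant_eq Ψ hΨ v hinv (fun x => f (toPat x))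
  rw [hone, one_mul] at h
  rw [← h, hv]
  simp

theorem exists_mu (n : ℕ) [NeZero n] : ∃ μ : (Fin (2 * n) → ℝ) → Pat (2 * n) → ℝ,
    EX (Set.Ioo 0 1) μ ∧ ROT (Set.Ioo 0 1) μ ∧
    (∀ a : Fin (2 * n) → ℝ, (∀ i, a i ∈ Set.Ioo (0 : ℝ) 1) → (∀ π, 0 ≤ μ a π) ∧ ∑ π, μ a π = 1) ∧
    -- the homogeneous limit
    ∀ Ψ : (PX (2 * n) → ℝ) →ₗ[ℝ] ℝ,
      (∀ f : PX (2 * n) → ℝ, ∀ x, Tendsto (fun M : ℕ => (SX (1 / 2) ^ M) f x) atTop (𝓝 (Ψ f))) →
      ∀ (u : ℕ → Fin (2 * n) → ℝ) (ν : Pat (2 * n) → ℝ), (∀ k i, u k i ∈ Set.Ioo (0 : ℝ) 1) →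
        Tendsto u atTop (𝓝 (fun _ => 1 / 2)) → (∀ π, Tendsto (fun k => μ (u k) π) atTop (𝓝 (ν π))) →
        ∀ f : Pat (2 * n) → ℝ, Ψ (fun x => f (toPat x)) = ∑ π, ν π * f π :=
  ⟨muP, EX_muP, ROT_muP, fun _ ha => ⟨muP_nonneg ha, muP_sum ha⟩, hom_limit⟩

/-- the polynomial solution together with its value at the homogeneous point -/
theorem exists_sol (n : ℕ) [NeZero n] :
    ∃ P : Pat (2 * n) → MvPolynomial (Fin (2 * n)) ℝ,
      (∀ π i, (P π).degreeOf i ≤ 2 * n - 1) ∧
      (∀ a, MvPolynomial.eval a (P (chi n)) = Delta a) ∧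
      EX Set.univ (fun (a : Fin (2 * n) → ℂ) π => MvPolynomial.aeval a (P π)) ∧
      ROT Set.univ (fun (a : Fin (2 * n) → ℂ) π => MvPolynomial.aeval a (P π)) ∧
      0 < ∑ π, MvPolynomial.eval (fun _ => (1 / 2 : ℝ)) (P π) ∧
      ∀ Ψ : (PX (2 * n) → ℝ) →ₗ[ℝ] ℝ,
        (∀ f : PX (2 * n) → ℝ, ∀ x,
          Tendsto (fun M : ℕ => (SX (1 / 2) ^ M) f x) atTop (𝓝 (Ψ f))) →
        ∀ f : Pat (2 * n) → ℝ, Ψ (fun x => f (toPat x)) =
          (∑ π, MvPolynomial.eval (fun _ => (1 / 2 : ℝ)) (P π) * f π) /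
            ∑ π, MvPolynomial.eval (fun _ => (1 / 2 : ℝ)) (P π) := by
  obtain ⟨P, h1, h2, h3, h4, h5⟩ := exists_poly (n := n) muP EX_muP ROT_muP
    (fun a ha => muP_sum ha)
  have hn : 0 < n := Nat.pos_of_ne_zero (NeZero.ne n)
  -- a sequence of injective tuples
  set u : ℕ → Fin (2 * n) → ℝ := fun k i => 1 / 2 + (i : ℝ) / (4 * n) * (1 / ((k : ℝ) + 1)) with hu
  have hnr : (0 : ℝ) < n := by exact_mod_cast hn
  have hfrac : ∀ i : Fin (2 * n), 0 ≤ (i : ℝ) / (4 * n) ∧ (i : ℝ) / (4 * n) < 1 / 2 := by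
    intro i
    constructor
    · positivity
    · rw [div_lt_iff₀ (by positivity)]
      have : (i : ℝ) < 2 * n := by exact_mod_cast i.isLt
      linarith
  have hk : ∀ k : ℕ, 0 < 1 / ((k : ℝ) + 1) ∧ 1 / ((k : ℝ) + 1) ≤ 1 := by
    intro k
    constructor
    · positivity
    · rw [div_le_one (by positivity)]
      have : (0 : ℝ) ≤ k := by positivity
      linarith
  have hu01 : ∀ k i, u k i ∈ Set.Ioo (0 : ℝ) 1 := by
    intro k i
    have a1 := hfrac i
    have a2 := hk k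
    constructor
    · simp only [hu]
      have := mul_nonneg a1.1 a2.1.le
      linarith
    · simp only [hu]
      have : (i : ℝ) / (4 * n) * (1 / ((k : ℝ) + 1)) ≤ (i : ℝ) / (4 * n) * 1 :=
        mul_le_mul_of_nonneg_left a2.2 a1.1
      linarith [a1.2]
  have huinj : ∀ k, Function.Injective (u k) := by
    intro k i j hij
    simp only [hu] at hij
    have a2 := (hk k).1
    have h6 : (i : ℝ) / (4 * n) = (j : ℝ) / (4 * n) := by
      have := mul_right_cancel₀ a2.ne' (add_left_cancel hij)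
      exact this
    rw [div_left_inj' (by positivity)] at h6
    exact Fin.ext (by exact_mod_cast h6)
  have hulim : Tendsto u atTop (𝓝 (fun _ => 1 / 2)) := by
    rw [tendsto_pi_nhds]
    intro i
    have h7 : Tendsto (fun k : ℕ => 1 / ((k : ℝ) + 1)) atTop (𝓝 0) :=
      tendsto_one_div_add_atTop_nhds_zero_nat
    have h8 := (h7.const_mul ((i : ℝ) / (4 * n))).const_add (1 / 2)
    rw [mul_zero, add_zero] at h8
    exact h8
  have hP : ∀ π, Tendsto (fun k => MvPolynomial.eval (u k) (P π)) atTop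
      (𝓝 (MvPolynomial.eval (fun _ => (1 / 2 : ℝ)) (P π))) := by
    intro π
    exact ((MvPolynomial.continuous_eval (P π)).tendsto _).comp hulim
  have hS : Tendsto (fun k => ∑ π, MvPolynomial.eval (u k) (P π)) atTop
      (𝓝 (∑ π, MvPolynomial.eval (fun _ => (1 / 2 : ℝ)) (P π))) :=
    tendsto_finsetSum _ (fun π _ => hP π)
  have hrel : ∀ k π, MvPolynomial.eval (u k) (P π)
      = (∑ π', MvPolynomial.eval (u k) (P π')) * muP (u k) π :=
    fun k π => h5 (u k) (huinj k) (hu01 k) π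
  have hDelta : ∀ a : Fin (2 * n) → ℝ, (∀ i, 0 < a i ∧ a i < 1) → 0 < Delta a := by
    intro a ha
    unfold Delta
    refine Finset.prod_pos (fun i _ => Finset.prod_pos (fun j _ => ?_))
    unfold D
    have b1 := ha i
    have b2 := ha j
    nlinarith [mul_pos b1.1 b2.1]
  have hchi : 0 < MvPolynomial.eval (fun _ => (1 / 2 : ℝ)) (P (chi n)) := by
    rw [h2]
    exact hDelta _ (fun i => by norm_num)
  have hSk : ∀ k, 0 < ∑ π, MvPolynomial.eval (u k) (P π) := by
    intro k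
    have b1 := hrel k (chi n)
    rw [h2] at b1
    have b2 := hDelta (u k) (fun i => hu01 k i)
    have b3 := muP_nonneg (hu01 k) (chi n)
    rw [b1] at b2
    exact pos_of_mul_pos_left b2 b3
  have hS0 : 0 < ∑ π, MvPolynomial.eval (fun _ => (1 / 2 : ℝ)) (P π) := by
    have b1 : ∀ k, MvPolynomial.eval (u k) (P (chi n)) ≤ ∑ π, MvPolynomial.eval (u k) (P π) := by
      intro k
      rw [hrel k (chi n)]
      have := muP_le_one (hu01 k) (chi n)
      have := hSk k
      nlinarith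
    exact hchi.trans_le (le_of_tendsto_of_tendsto' (hP (chi n)) hS b1)
  refine ⟨P, h1, h2, h3, h4, hS0, ?_⟩
  intro Ψ hΨ f
  rw [hom_limit Ψ hΨ u (fun π => MvPolynomial.eval (fun _ => (1 / 2 : ℝ)) (P π) /
    ∑ π, MvPolynomial.eval (fun _ => (1 / 2 : ℝ)) (P π)) hu01 hulim (fun π => ?_) f]
  · rw [Finset.sum_div]
    exact Finset.sum_congr rfl (fun π _ => by ring)
  · have b1 := (hP π).div hS hS0.ne'
    refine b1.congr (fun k => ?_)
    rw [Pi.div_apply, hrel k π, mul_div_cancel_left₀ _ (hSk k).ne']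

end Pool.Agent.H51.TA
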